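import Mathlib
import Pool.Agent.Run7.h176.SG.Main
import Pool.Agent.Results.MP_8fded1_nt.EllipticPointIsHarmless
import Pool.Agent.Results.MP_8fded1_nt.CuspControlsCompactSets

/-!
# Large values of Hecke-Maass forms away from the special geodesics and the CM points (MP_8fded1_nt)

An integral binary quadratic form `a X² + b X Y + c Y²` of discriminant `D = b² - 4 a c ≠ 0` defines
in the upper half-plane a geodesic `a |z|² + b Re z + c = 0`, if `D > 0` (the closed geodesics of the
modular surface and the geodesics between two cusps), or a CM point, if `D < 0`. There are absolute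
constants `A` and such that, for every Hecke-Maass cusp form `U` for `SL_2(Z)`, every `z` with
`|z| ≤ R`, `Im z ≥ 1 / R` and every `N ≥ 1`, there is a point `w = (a z + b) / d` in the Hecke orbit of
`z`, `a d ≤ 2^56 N^13`, with `|U z| ≤ A N^A |U w|` whose hyperbolic distance from *all* the geodesics
and CM points of discriminants `|D| ≤ N` is at least `1 / (2^95 R² N^22)`. With `N = T^η`: up to
factors `T^(Aη)` all large values of `U` are seen far from all these geodesics, which is a pointwise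
form of the theorem of Rudnick and Sarnak that the quantum limits are not concentrated on closed
geodesics. With the start result `CuspControlsCompactSets` it follows that, for every exponent `s` and
all `N` and `Y`, the sup-norm bound with exponent `s` on the compact sets which are contained in the
neighbourhood `Im z ≥ Y` of the cusp and avoid all geodesics and CM points of discriminants `|D| ≤ N`
implies it on all compact sets.

Proof. By `NoShortHeckeReturns` (start, library `Pool.Agent.N661.SN`) one may assume that no integral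
matrix of small determinant moves `z` little. Then two different geodesics of small discriminant
cannot both be near `z`: their intersection would be a CM point, the root of the Jacobian of the two
forms. So there is at most one primitive form `v` of small discriminant whose geodesic is near `z`.
Let `p = 3`. The relation `c U(z_j) = U(z) + ∑_b U((z_j + b) / 3)`, `z_j = (z + j) / 3`, for the
eigenvalue `c` of `T_3`, which is bounded (library `Pool.Agent.N889.SN`), shows that for *every*
`j` one of the values at `z_j` and at the `(z_j + b) / 3` is at least `|U z| / (|c| + 3)`: the first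
direction of the walk on the tree may be chosen. As `v` is primitive it has at most two roots in the
projective line over `F_3`, so `j` can be chosen with `3 ∤ v(-j, 1)`. One walks down to
`w = (z + b) / 3^m` with `9^m > N`, `b ≡ j mod 3`. If `w` were near the geodesic of a form `v'` of
discriminant `≤ N`, then `v' ∘ (1, b; 0, 3^m)` would be proportional to `v`, and by the choice of `j`
its content would be divisible by `9^m`, so that the discriminant of `v'` would be at least `9^m`.
-/

set_option autoImplicit false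

open UpperHalfPlane

namespace Pool.Agent.Results.MP_8fded1_nt.AwayFromSpecialGeodesics

open Pool.Agent.Results.MP_8fded1_nt.EllipticPointIsHarmless (IsHeckeMaass SupNormBound)

/-- `s` is a point of a geodesic, or is a CM point, attached to an integral binary quadratic form
whose discriminant is nonzero and at most `N` in absolute value. -/
def Special (N : ℕ) (s : ℍ) : Prop :=
  ∃ a b c : ℤ,
    (0 < b ^ 2 - 4 * a * c ∧ b ^ 2 - 4 * a * c ≤ N ∧
      (a : ℝ) * ‖(s : ℂ)‖ ^ 2 + b * (s : ℂ).re + c = 0) ∨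
    (b ^ 2 - 4 * a * c < 0 ∧ -(N : ℤ) ≤ b ^ 2 - 4 * a * c ∧
      (a : ℂ) * (s : ℂ) ^ 2 + b * (s : ℂ) + c = 0)

/-- `K` contains no point of the geodesics and no CM point of discriminant at most `N`. -/
def AvoidsSpecial (N : ℕ) (K : Set ℂ) : Prop := ∀ s : ℍ, Special N s → (s : ℂ) ∉ K

theorem Special.mono {N N' : ℕ} (h : N ≤ N') {s : ℍ} (hs : Special N s) : Special N' s := by
  have h' : (N : ℤ) ≤ N' := by exact_mod_cast h
  obtain ⟨a, b, c, ⟨h1, h2, h3⟩ | ⟨h1, h2, h3⟩⟩ := hs
  · exact ⟨a, b, c, Or.inl ⟨h1, h2.trans h', h3⟩⟩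
  · exact ⟨a, b, c, Or.inr ⟨h1, by linarith, h3⟩⟩

/-- the points in a region which are far from all special points form a compact set -/
theorem isCompact_far (N : ℕ) (Y Q δ : ℝ) (hQ : 0 < Q) :
    IsCompact ((fun w : ℍ => (w : ℂ)) '' {w : ℍ | ‖(w : ℂ)‖ ≤ Q ∧ 1 / Q ≤ w.im ∧ Y ≤ w.im ∧
      ∀ s : ℍ, Special N s → δ ≤ dist w s}) := by
  have hB : IsCompact (Metric.closedBall (0 : ℂ) Q ∩ {z : ℂ | 1 / Q ≤ z.im}) :=
    (isCompact_closedBall _ _).inter_right (isClosed_le continuous_const Complex.continuous_im)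
  have hsub : Metric.closedBall (0 : ℂ) Q ∩ {z : ℂ | 1 / Q ≤ z.im} ⊆
      Set.range (fun w : ℍ => (w : ℂ)) := by
    rintro z ⟨-, hz⟩
    have h0 : 0 < z.im := lt_of_lt_of_le (by positivity) hz
    exact ⟨⟨z, h0⟩, rfl⟩
  have hpre : IsCompact ((fun w : ℍ => (w : ℂ)) ⁻¹'
      (Metric.closedBall (0 : ℂ) Q ∩ {z : ℂ | 1 / Q ≤ z.im})) :=
    (UpperHalfPlane.isOpenEmbedding_coe.isInducing.isCompact_preimage_iff hsub).2 hB
  have hcl : IsClosed {w : ℍ | ‖(w : ℂ)‖ ≤ Q ∧ 1 / Q ≤ w.im ∧ Y ≤ w.im ∧
      ∀ s : ℍ, Special N s → δ ≤ dist w s} := by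
    have e : {w : ℍ | ‖(w : ℂ)‖ ≤ Q ∧ 1 / Q ≤ w.im ∧ Y ≤ w.im ∧
        ∀ s : ℍ, Special N s → δ ≤ dist w s} =
        {w : ℍ | ‖(w : ℂ)‖ ≤ Q} ∩ ({w : ℍ | 1 / Q ≤ w.im} ∩ ({w : ℍ | Y ≤ w.im} ∩
          ⋂ (s : ℍ) (_ : Special N s), {w : ℍ | δ ≤ dist w s})) := by
      ext w
      simp
    rw [e]
    refine IsClosed.inter ?_ (IsClosed.inter ?_ (IsClosed.inter ?_ ?_))
    · exact isClosed_le (UpperHalfPlane.continuous_coe.norm) continuous_const
    · exact isClosed_le continuous_const UpperHalfPlane.continuous_im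
    · exact isClosed_le continuous_const UpperHalfPlane.continuous_im
    · exact isClosed_biInter fun s _ => isClosed_le continuous_const (continuous_id.dist continuous_const)
  refine IsCompact.image ?_ UpperHalfPlane.continuous_coe
  refine hpre.of_isClosed_subset hcl ?_
  rintro w ⟨h1, h2, -⟩
  exact ⟨by simpa using h1, h2⟩

/-- **Large values away from the special geodesics and the CM points.**
(1) There is an absolute constant `A` such that for every Hecke-Maass cusp form `U`, every `R ≥ 1`,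
every `z` with `|z| ≤ R`, `Im z ≥ 1 / R` and every `N ≥ 1` there is a point `w = (a z + b) / d` with
`a d ≤ 2^56 N^13`, `0 ≤ b < d`, such that `|U z| ≤ A N^A |U w|` and the hyperbolic distance of `w` from
every point of every geodesic of discriminant at most `N` and from every CM point of discriminant at
least `-N` is at least `1 / (2^95 R^2 N^22)`.
(2) For every `N` and all real `Y`, `s`: if the sup-norm bound with exponent `s` holds on every compact
subset of the neighbourhood `Im z ≥ Y` of the cusp (in the upper half-plane) which contains no point of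
these geodesics and none of these CM points, then it holds on every compact subset of the upper
half-plane. -/
theorem result :
    (∃ A : ℕ, ∀ (U : ℂ → ℂ) (T : ℝ), IsHeckeMaass U T →
      ∀ R : ℝ, 1 ≤ R → ∀ z : ℍ, ‖(z : ℂ)‖ ≤ R → 1 / R ≤ z.im → ∀ N : ℕ, 1 ≤ N →
      ∃ (w : ℍ) (a b d : ℕ), 0 < a ∧ 0 < d ∧ b < d ∧ a * d ≤ 2 ^ 56 * N ^ 13 ∧
        (w : ℂ) = ((a : ℂ) * (z : ℂ) + (b : ℂ)) / (d : ℂ) ∧
        ‖U (z : ℂ)‖ ≤ (A : ℝ) * (N : ℝ) ^ A * ‖U (w : ℂ)‖ ∧
        ∀ s : ℍ, Special N s → 1 / (2 ^ 95 * R ^ 2 * (N : ℝ) ^ 22) ≤ dist w s) ∧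
    ∀ (N : ℕ) (Y s : ℝ),
      (∀ K : Set ℂ, IsCompact K → K ⊆ {z : ℂ | 0 < z.im ∧ Y ≤ z.im} → AvoidsSpecial N K →
        SupNormBound K s) →
      ∀ K : Set ℂ, IsCompact K → K ⊆ {z : ℂ | 0 < z.im} → SupNormBound K s := by
  obtain ⟨A, hA1, hA⟩ := Pool.Agent.Run7.h176.SG.pointwise
  refine ⟨⟨A, hA⟩, ?_⟩
  intro N₀ Y σ h K hK hKpos
  set N : ℕ := max N₀ 1 with hN
  have hN1 : 1 ≤ N := le_max_right _ _
  have hN1r : (1 : ℝ) ≤ N := by exact_mod_cast hN1
  set P : ℝ := 2 ^ 56 * (N : ℝ) ^ 13 with hP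
  have hP0 : 0 < P := by rw [hP]; positivity
  -- a box in the cusp
  set Y₀ : ℝ := max 1 (P * Y) with hY₀
  have hY₀1 : 1 ≤ Y₀ := le_max_left _ _
  obtain ⟨Y₂, hY₂⟩ := Pool.Agent.Results.MP_8fded1_nt.CuspControlsCompactSets.pointwise Y₀
  obtain ⟨C₁, hC₁, hbox⟩ := hY₂ K hK hKpos
  set R : ℝ := max 1 (1 / 2 + Y₂) with hR
  have hR1 : 1 ≤ R := le_max_left _ _
  set Q : ℝ := 2 * P * R with hQ
  set δ : ℝ := 1 / (2 ^ 95 * R ^ 2 * (N : ℝ) ^ 22) with hδ
  have hQ0 : 0 < Q := by rw [hQ]; positivity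
  have hδ0 : 0 < δ := by
    rw [hδ]; positivity
  obtain ⟨C, hC⟩ := h _ (isCompact_far N Y Q δ hQ0) (by
      rintro _ ⟨w, ⟨-, -, hw, -⟩, rfl⟩
      exact ⟨w.im_pos, hw⟩) (by
      rintro s hs ⟨w, ⟨-, -, -, hw⟩, hws⟩
      have e : w = s := UpperHalfPlane.ext hws
      subst e
      have h1 := hw w (hs.mono (le_max_left _ _))
      rw [dist_self] at h1
      linarith)
  refine ⟨C₁ * ((A : ℝ) * (N : ℝ) ^ A * C), fun U T hT hU z hz => ?_⟩
  obtain ⟨v, ⟨hv1, hv2, hv3⟩, hzv⟩ := hbox U T hU z hz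
  have hvpos : 0 < v.im := by linarith
  have hvR : ‖v‖ ≤ R := by
    refine (Complex.norm_le_abs_re_add_abs_im v).trans (le_trans ?_ (le_max_right _ _))
    rw [abs_of_pos hvpos]
    linarith
  have hvr : 1 / R ≤ v.im := by
    have h1 : 1 / R ≤ 1 := by
      rw [div_le_one (by linarith)]
      exact hR1
    linarith
  obtain ⟨w, a, b, d, ha, hd, hb, had, hw, hle, hfar⟩ :=
    hA U T hU R hR1 ⟨v, hvpos⟩ hvR hvr N hN1
  have hadP : ((a * d : ℕ) : ℝ) ≤ P := by
    rw [hP]
    exact_mod_cast had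
  obtain ⟨hwQ, hwQ'⟩ := Pool.Agent.Run7.h176.SG.ptbound (z := ⟨v, hvpos⟩) hR1 hvR hvr
    ha hd hb hadP hw
  have hwY : Y ≤ w.im := by
    have ha1 : (1 : ℝ) ≤ a := by exact_mod_cast ha
    have hd1 : (1 : ℝ) ≤ d := by exact_mod_cast hd
    push_cast at hadP
    have hdP : (d : ℝ) ≤ P := by nlinarith
    have him : w.im = a * v.im / d := by
      have h1 := congrArg Complex.im hw
      rw [show ((d : ℕ) : ℂ) = ((d : ℝ) : ℂ) by norm_cast, Complex.div_ofReal_im] at h1
      rw [← UpperHalfPlane.coe_im, h1]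
      simp
    rw [him, le_div_iff₀ (by linarith)]
    rcases le_or_gt Y 0 with hY | hY
    · have h2 : Y * d ≤ 0 := mul_nonpos_of_nonpos_of_nonneg hY (by linarith)
      have h3 : 0 < (a : ℝ) * v.im := by positivity
      linarith
    · calc Y * d ≤ Y * P := by gcongr
        _ = P * Y := mul_comm _ _
        _ ≤ Y₀ := le_max_right _ _
        _ ≤ v.im := hv2
        _ ≤ a * v.im := by nlinarith
  have h1 := hC U T hT hU w ⟨w, ⟨hwQ, hwQ', hwY, hfar⟩, rfl⟩
  calc ‖U z‖ ≤ C₁ * ‖U v‖ := hzv
    _ ≤ C₁ * ((A : ℝ) * (N : ℝ) ^ A * ‖U (w : ℂ)‖) := by gcongr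
    _ ≤ C₁ * ((A : ℝ) * (N : ℝ) ^ A * (C * T ^ σ)) := by gcongr
    _ = C₁ * ((A : ℝ) * (N : ℝ) ^ A * C) * T ^ σ := by ring

end Pool.Agent.Results.MP_8fded1_nt.AwayFromSpecialGeodesics
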